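import Pool.Agent.T9h20.TE.Spec

/-!
# Piece (E): sign changes along a monotone grid

Author: helper19.
-/

set_option autoImplicit false

open MeasureTheory Set Filter Topology
open scoped ENNReal NNReal

namespace Pool.Agent.T9h19.TE

open Pool.Agent.T9h20.TA (mon fn PP upd kap)
open Pool.Agent.T9h20.TE

theorem mon_ne {t : ℕ} {c a : Fin t → ℝ} {s : Fin t} (h : c s ≠ 0) (y : ℝ) : mon c a s y ≠ 0 :=
  mul_ne_zero h (Real.exp_pos _).ne'

theorem fn_eq {t : ℕ} {c a : Fin t → ℝ} {s0 : Fin t} (h : c s0 ≠ 0) (v : Fin t → ℝ) (y : ℝ) :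
    fn c a v y = mon c a s0 y * ∑ s, v s * WW c a s0 s y := by
  unfold fn WW
  rw [Finset.mul_sum]
  refine Finset.sum_congr rfl fun s _ => ?_
  have h1 := mon_ne (a := a) h y
  field_simp

theorem WW_eq {t : ℕ} {c a : Fin t → ℝ} {s0 : Fin t} (h : c s0 ≠ 0) (s : Fin t) (y : ℝ) :
    WW c a s0 s y = c s / c s0 * Real.exp ((a s - a s0) * y) := by
  unfold WW mon
  have h1 : Real.exp ((a s - a s0) * y) = Real.exp (a s * y) / Real.exp (a s0 * y) := by
    rw [← Real.exp_sub]; congr 1; ring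
  rw [h1]
  have h2 := (Real.exp_pos (a s0 * y)).ne'
  field_simp

theorem sum_enorm_mono {u : ℕ → ℝ} (hu : Monotone u) (L : ℕ) :
    ∑ l ∈ Finset.range L, ‖u (l + 1) - u l‖ₑ = ‖u L - u 0‖ₑ := by
  have h1 : ∀ l, ‖u (l + 1) - u l‖ₑ = ENNReal.ofReal (u (l + 1) - u l) := fun l => by
    rw [Real.enorm_eq_ofReal (sub_nonneg.2 (hu (Nat.le_succ l)))]
  rw [Finset.sum_congr rfl fun l _ => h1 l,
    ← ENNReal.ofReal_sum_of_nonneg fun l _ => sub_nonneg.2 (hu (Nat.le_succ l)),
    Finset.sum_range_sub, Real.enorm_eq_ofReal (sub_nonneg.2 (hu (Nat.zero_le L)))]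

theorem sum_enorm_anti {u : ℕ → ℝ} (hu : Antitone u) (L : ℕ) :
    ∑ l ∈ Finset.range L, ‖u (l + 1) - u l‖ₑ = ‖u L - u 0‖ₑ := by
  have h := sum_enorm_mono (u := fun l => -u l) (fun i j hij => neg_le_neg (hu hij)) L
  have h2 : ∀ x y : ℝ, ‖-x - -y‖ₑ = ‖x - y‖ₑ := fun x y => by
    rw [show -x - -y = -(x - y) by ring, enorm_neg]
  simp only [h2] at h
  exact h

theorem WW_tele {t : ℕ} {c a : Fin t → ℝ} {s0 : Fin t} (h : c s0 ≠ 0) (s : Fin t) {y : ℕ → ℝ}
    (hy : Monotone y) (L : ℕ) :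
    ∑ l ∈ Finset.range L, ‖WW c a s0 s (y (l + 1)) - WW c a s0 s (y l)‖ₑ =
      ‖WW c a s0 s (y L) - WW c a s0 s (y 0)‖ₑ := by
  have hexp : Monotone (fun l => WW c a s0 s (y l)) ∨ Antitone (fun l => WW c a s0 s (y l)) := by
    simp only [WW_eq h]
    rcases le_total 0 (a s - a s0) with h1 | h1 <;> rcases le_total 0 (c s / c s0) with h2 | h2
    · left; intro i j hij
      exact mul_le_mul_of_nonneg_left
        (Real.exp_le_exp.2 (mul_le_mul_of_nonneg_left (hy hij) h1)) h2
    · right; intro i j hij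
      exact mul_le_mul_of_nonpos_left
        (Real.exp_le_exp.2 (mul_le_mul_of_nonneg_left (hy hij) h1)) h2
    · right; intro i j hij
      exact mul_le_mul_of_nonneg_left
        (Real.exp_le_exp.2 (mul_le_mul_of_nonpos_left (hy hij) h1)) h2
    · left; intro i j hij
      exact mul_le_mul_of_nonpos_left
        (Real.exp_le_exp.2 (mul_le_mul_of_nonpos_left (hy hij) h1)) h2
  rcases hexp with h1 | h1
  · exact sum_enorm_mono h1 L
  · exact sum_enorm_anti h1 L

/-- the normalised expression -/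
noncomputable def EE {k q t : ℕ} (b d : Fin k → ℝ) (al : Fin k → Fin q → ℕ)
    (c a : Fin q → Fin t → ℝ) (s0 : Fin q → Fin t) (y : ℝ) (r : Fin q → ℝ) : ℝ :=
  ∑ i, (b i * ∏ j, c j (s0 j) ^ al i j) *
    Real.exp ((d i + ∑ j, (al i j : ℝ) * a j (s0 j)) * y) * ∏ j, r j ^ al i j

theorem FF_eq {k q t : ℕ} (b d : Fin k → ℝ) (al : Fin k → Fin q → ℕ)
    (c a : Fin q → Fin t → ℝ) (s0 : Fin q → Fin t) (hc : ∀ j, c j (s0 j) ≠ 0)
    (v : Fin q → Fin t → ℝ) (y : ℝ) :
    FF b d al c a v y = EE b d al c a s0 y (rho (fun j s => WW (c j) (a j) (s0 j) s y) v) := by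
  unfold FF EE rho
  refine Finset.sum_congr rfl fun i _ => ?_
  have h1 : ∀ j, fn (c j) (a j) (v j) y ^ al i j =
      c j (s0 j) ^ al i j * Real.exp ((al i j : ℝ) * a j (s0 j) * y) *
        (∑ s, v j s * WW (c j) (a j) (s0 j) s y) ^ al i j := by
    intro j
    rw [fn_eq (hc j), mul_pow]
    congr 1
    unfold mon
    rw [mul_pow, ← Real.exp_nat_mul]
    congr 2; ring
  rw [Finset.prod_congr rfl fun j _ => h1 j, Finset.prod_mul_distrib, Finset.prod_mul_distrib,
    ← Real.exp_sum, add_mul, Finset.sum_mul, Real.exp_add]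
  ring

theorem sGrid (HA : SExp) (HB : SCross) (HD : SBlk) : SGrid := by
  intro k q t b d al c a μ _ A hSh hA s0 hc L y hy
  set g : ℕ → Fin q → Fin t → ℝ := fun l j s => WW (c j) (a j) (s0 j) s (y l) with hg
  set D : ℕ → Set (Fin q → ℝ) := fun l => {r | 0 ≤ EE b d al c a s0 (y l) r} with hD
  have hcont : ∀ l, Continuous fun r : Fin q → ℝ => EE b d al c a s0 (y l) r := by
    intro l
    unfold EE
    fun_prop
  have key := HD q t μ A hSh hA s0 L g
    (fun l j => by
      simp only [hg, WW]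
      exact div_self (mon_ne (hc j) _))
    D (fun l => (isClosed_le continuous_const (hcont l)).measurableSet) (k - 1) (2 * k)
    (fun r => by
      have h := HA k L (fun i => (b i * ∏ j, c j (s0 j) ^ al i j) * ∏ j, r j ^ al i j)
        (fun i => d i + ∑ j, (al i j : ℝ) * a j (s0 j)) y hy
      refine le_trans (le_of_eq ?_) h
      congr 1
      funext l
      simp only [hD, mem_ofPred_eq, EE]
      congr 1
      congr 1
      funext i
      ring)
    (fun l j r x x' => by
      have h := HB k (fun i => (b i * ∏ j, c j (s0 j) ^ al i j) *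
          Real.exp ((d i + ∑ j, (al i j : ℝ) * a j (s0 j)) * y l) *
          ∏ j' ∈ Finset.univ.erase j, r j' ^ al i j') (fun i => al i j) (μ j (s0 j))
          (hSh j (s0 j)) x x'
      have h3 : ∀ z, EE b d al c a s0 (y l) (Function.update r j z) =
          ∑ i, ((b i * ∏ j, c j (s0 j) ^ al i j) *
          Real.exp ((d i + ∑ j, (al i j : ℝ) * a j (s0 j)) * y l) *
          ∏ j' ∈ Finset.univ.erase j, r j' ^ al i j') * z ^ al i j := by
        intro z
        unfold EE
        refine Finset.sum_congr rfl fun i _ => ?_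
        have h6 : ∏ j' ∈ Finset.univ.erase j, Function.update r j z j' ^ al i j' =
            ∏ j' ∈ Finset.univ.erase j, r j' ^ al i j' :=
          Finset.prod_congr rfl fun j' hj' => by
            rw [Function.update_of_ne (Finset.ne_of_mem_erase hj')]
        rw [← Finset.mul_prod_erase Finset.univ (fun j' => Function.update r j z j' ^ al i j')
          (Finset.mem_univ j), Function.update_self, h6]
        ring
      simp only [hD, mem_ofPred_eq, h3]
      refine h.trans (le_of_eq ?_)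
      push_cast
      rfl)
  have h4 : ∀ l, {v : Fin q → Fin t → ℝ | ¬(0 ≤ FF b d al c a v (y l) ↔
      0 ≤ FF b d al c a v (y (l + 1)))} =
      {v | ¬(rho (g l) v ∈ D l ↔ rho (g (l + 1)) v ∈ D (l + 1))} := by
    intro l
    ext v
    simp only [mem_ofPred_eq, hD, hg, FF_eq b d al c a s0 hc v]
  simp only [h4]
  refine key.trans (le_of_eq ?_)
  have h5 : ∑ l ∈ Finset.range L, ∑ j, ∑ s, ‖g (l + 1) j s - g l j s‖ₑ =
      ∑ j, ∑ s, ‖WW (c j) (a j) (s0 j) s (y L) - WW (c j) (a j) (s0 j) s (y 0)‖ₑ := by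
    rw [Finset.sum_comm]
    refine Finset.sum_congr rfl fun j _ => ?_
    rw [Finset.sum_comm]
    exact Finset.sum_congr rfl fun s _ => WW_tele (hc j) s hy L
  rw [h5]
  push_cast
  rfl


end Pool.Agent.T9h19.TE
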